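import Mathlib
import Pool.Agent.R945.TP.Q1
import Pool.Agent.R945.TP.P3

set_option autoImplicit false

namespace Pool.Agent.Results.MP_e449c6_nt.Full

open Finset Matrix Pool.Agent.R945.TP Pool.Agent.Helper184.Chapman NumberField Module

/-- the determinant of `[x + (j-k|p) + (j|p) y + (k|p) z + (jk|p) w]`, `0 ≤ j, k ≤ (p-5)/2` -/
noncomputable def D (p : ℕ) [Fact p.Prime] (x y z w : ℂ) : ℂ :=
  (Matrix.of fun j k : Fin ((p - 3) / 2) =>
    x + ((legendreSym p ((j : ℤ) - (k : ℤ)) : ℤ) : ℂ) + ((legendreSym p (j : ℤ) : ℤ) : ℂ) * y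
      + ((legendreSym p (k : ℤ) : ℤ) : ℂ) * z + ((legendreSym p ((j : ℤ) * (k : ℤ)) : ℤ) : ℂ) * w).det

/-- `ε` is the fundamental unit `> 1` of `K`, seen in `ℝ` through `φ` -/
def IsFundamentalUnit (K : Type) [Field K] [NumberField K] (φ : K →+* ℝ) (ε : ℝ) : Prop :=
  1 < ε ∧ ∀ x : ℝ, (∃ v : (𝓞 K)ˣ, φ ((v : 𝓞 K) : K) = x) ↔ ∃ n : ℤ, x = ε ^ n ∨ x = -ε ^ n

lemma D_eq (p : ℕ) [Fact p.Prime] (k : ℕ) (hm : p = 2 * (k + 2) + 1) (x y z w : ℂ) :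
    D p x y z w = (Matrix.of fun i j : Fin (k + 1) => T p ℂ (k + 1) i j + x + chi p ℂ ((i : ℕ) : ZMod p) * y
      + chi p ℂ ((j : ℕ) : ZMod p) * z + chi p ℂ ((i : ℕ) : ZMod p) * chi p ℂ ((j : ℕ) : ZMod p) * w).det := by
  have hm1 : (p - 3) / 2 = k + 1 := by omega
  unfold D
  rw [hm1]
  congr 1
  ext j k
  simp only [Matrix.of_apply, T_apply, chi_apply]
  unfold legendreSym
  push_cast
  rw [map_mul]
  push_cast
  ring

theorem result (p : ℕ) [Fact p.Prime] (h5 : 5 ≤ p) :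
    (p % 4 = 1 → ∀ (K : Type) [Field K] [NumberField K], finrank ℚ K = 2 →
      (∃ β : K, β ^ 2 = (p : K)) → ∀ (φ : K →+* ℝ) (ε : ℝ), IsFundamentalUnit K φ ε →
      ∀ a b : ℚ, ε ^ ((2 - legendreSym p 2) * (classNumber K : ℤ)) = a + b * Real.sqrt p →
      ∀ x y z w : ℂ, D p x y z w =
        (legendreSym p 2 : ℤ) * (2 * a - p * b) * x + (a - 2 * b) * ((1 + y) * (1 + z) - w * x)) ∧
    (p % 4 = 3 → ∀ x y z w : ℂ, D p x y z w = w * x + (1 + y) * (1 - z)) := by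
  have hp : p.Prime := Fact.out
  obtain ⟨k, hm⟩ : ∃ k, p = 2 * (k + 2) + 1 := by
    rcases hp.eq_two_or_odd with h | h
    · omega
    · exact ⟨p / 2 - 2, by omega⟩
  constructor
  · intro h1 K _ _ h2 ⟨β, hβ⟩ φ ε hε a b hab x y z w
    obtain ⟨D', hZ, hpos⟩ := dat_of h1 (k + 2) hm K h2 β hβ φ ε hε a b hab
    rw [D_eq p k hm, D'.main_Tk rfl hZ hpos, chi_apply]
    have hL : legendreSym p 2 = quadraticChar (ZMod p) 2 := by unfold legendreSym; push_cast; rfl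
    rw [hL]
  · intro h3 x y z w
    obtain ⟨κ, D'⟩ := dat3 h3 (k + 2) hm
    rw [D_eq p k hm, D'.main_Tk rfl]

end Pool.Agent.Results.MP_e449c6_nt.Full
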